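import Pool.Agent.helper14.SCO.Spec

/-! # Row CSA of project SCO: case A of the main lemma -/

set_option autoImplicit false

namespace Pool.Agent.SCO

open Pool.Agent.Scheepers

theorem CSA_reg {l l' : ℕ} (h : l ≤ l') : Reg l ⊆ Reg l' := by
  rintro w ⟨e, he, hw⟩
  exact ⟨e, he.trans_le h, hw⟩

theorem CSA (h1 : DP2_stmt) (h2 : LRG_stmt) (h3 : PHO_stmt) : CSA_stmt := by
  intro p J W b V H t ht k l hk hl hb hJ w hBad
  have hw1 : w ∈ Reg (p.a (l 0)) := (hBad 0).1
  have hw2 : w ∉ Reg (p.a J) := (hBad 0).2.1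
  have hJm : J < l 0 := hJ 0
  have hJa : p.a J ≤ p.a (l 0) := p.mono.monotone hJm.le
  obtain ⟨-, hp⟩ := h2 p J (l 0) hJm H.lg t ht
  obtain ⟨u, hu1, hu2⟩ := hp w hw1 hw2
  obtain ⟨u3, u4, u5⟩ := hu2
  have hz1 : ∀ e, e < p.a (l 0) → cat (p.a (l 0)) u (dlt (insert w t)) e = u e := by
    intro e he
    unfold cat
    rw [if_pos he]
  have hz2 : ∀ e, p.a (l 0) ≤ e → cat (p.a (l 0)) u (dlt (insert w t)) e = dlt (insert w t) e := by
    intro e he
    unfold cat
    rw [if_neg (not_lt.2 he)]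
  set z := cat (p.a (l 0)) u (dlt (insert w t)) with hz
  have hzA : ∀ j, J ≤ j → z ∈ p.A j := by
    intro j hj
    by_cases hjm : j < l 0
    · have e1 : p.a (j + 1) ≤ p.a (l 0) := p.mono.monotone hjm
      exact p.loc j u z (fun e _ he2 => (hz1 e (he2.trans_le e1)).symm) (hu1 j (p.mono.monotone hj) e1)
    · have hmj : l 0 ≤ j := not_lt.1 hjm
      have e2 : p.a (l 0) ≤ p.a j := p.mono.monotone hmj
      have hsub : ((insert w t : Finset (ℕ × ℕ)) : Set (ℕ × ℕ)) ⊆ Reg (p.a j) := by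
        intro x hx
        rcases Finset.mem_insert.1 (Finset.mem_coe.1 hx) with rfl | hx'
        · exact CSA_reg e2 hw1
        · exact CSA_reg (p.mono.monotone hj) (ht hx')
      have h := (H.lg j hj (insert w t) hsub).1
      exact p.loc j _ z (fun e he1 _ => (hz2 e (e2.trans he1)).symm) h
  have hPat : ∀ i, Pat (p.a J) (p.a (l i)) t w z := by
    intro i
    have e3 : p.a (l 0) ≤ p.a (l i) := p.mono.monotone (hl.monotone (Nat.zero_le i))
    refine ⟨?_, ?_, ?_⟩
    · intro e he1 he2 he3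
      by_cases he : e < p.a (l 0)
      · rw [hz1 e he]
        exact u3 e he1 he he3
      · rw [hz2 e (not_lt.1 he)]
        have hne : pos e ≠ w := fun h => hw2 (h ▸ he3)
        unfold dlt
        simp [Finset.mem_insert, hne]
    · intro e he1 he2 he3
      by_cases he : e < p.a (l 0)
      · rw [hz1 e he]
        exact u4 e he1 he he3
      · rw [hz2 e (not_lt.1 he)]
        unfold dlt
        simp [he3]
    · intro w' hw' hw'' hne
      by_cases hm : w' ∈ Reg (p.a (l 0))
      · obtain ⟨e, he1, he2, he3, he4⟩ := u5 w' hm hw'' hne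
        exact ⟨e, he1, he2.trans_le e3, he3, by rw [hz1 e he2]; exact he4⟩
      · obtain ⟨e, he1, he2⟩ := hw'
        have he : p.a (l 0) ≤ e := by
          by_contra hc
          exact hm ⟨e, not_le.1 hc, he2⟩
        refine ⟨e, hJa.trans he, he1, he2, ?_⟩
        rw [hz2 e he]
        have ht' : w' ∉ t := fun h => hw'' (ht h)
        unfold dlt
        rw [he2]
        simp [Finset.mem_insert, hne, ht']
  have hinf : {i | Pat (p.a J) (p.a (l i)) t w z}.Infinite := by
    have : {i | Pat (p.a J) (p.a (l i)) t w z} = Set.univ := Set.eq_univ_of_forall hPat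
    rw [this]
    exact Set.infinite_univ
  obtain ⟨s, hs1, hs2⟩ := h3 p J W b H.sup t (fun _ => w) k l hk hl hb hBad z hzA hinf
  have hD : cat (p.a J) s z ∈ D := by
    refine ⟨insert w t, p.a (l 0), fun e he => ?_⟩
    have : cat (p.a J) s z e = z e := by
      unfold cat
      rw [if_neg (not_lt.2 (hJa.trans he))]
    rw [this, hz2 e he]
  obtain ⟨k0, hk0⟩ := H.cv _ hs1 ⟨h1 hD, fun i => (H.nb i).2 hD⟩
  obtain ⟨k', hk', hW⟩ := hs2 k0
  exact hk0 k' hk' hW

end Pool.Agent.SCO
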